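import Pool.Agent.Work.MP_814647_an.OS.FinalD

/-!
# A criterion for Axiom A of Omega-stable circle extensions

Let `π : M → B` be a smooth principal circle bundle of closed manifolds, `2 ≤ r ≤ ∞`, `A` a `C^r`
diffeomorphism of `B` such that the closure of its periodic points is hyperbolic, `A` is expansive
on it and `A` has the periodic shadowing property, and `f` a `C^r` diffeomorphism of `M` over `A`
which preserves the orientation of the circles. If `f` is `C^r` Omega-stable then the following
are equivalent:

* `f` satisfies Axiom A and has no cycles;
* the exponents along the circles of the periodic points of `f` are bounded away from zero;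
* at the periodic points of the small rotations of `f` along the circles the nonlinearity of the
  fibre maps, or their Schwarzian derivative, is one-sided with respect to some bounded structure
  functions along the circles (the sign, the kind and the structure functions may depend on the
  orbit);
* at these periodic points the fibre maps are affine to second order with respect to continuous
  structure functions.
-/

open Set Filter Topology
open scoped Manifold ContDiff

namespace Pool.Agent.Results.MP_814647_an.AxiomACriterion

open Pool.Agent.OmegaStability

theorem result {d m : ℕ} (hm : m = d + 1) {B M : Type*} [MetricSpace B] [CompactSpace B]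
    [ChartedSpace (EuclideanSpace ℝ (Fin d)) B]
    [IsManifold 𝓘(ℝ, EuclideanSpace ℝ (Fin d)) ∞ B]
    [MetricSpace M] [CompactSpace M] [ChartedSpace (EuclideanSpace ℝ (Fin m)) M]
    [IsManifold 𝓘(ℝ, EuclideanSpace ℝ (Fin m)) ∞ M] [MulAction Circle M]
    {π : M → B}
    (hπ : PrincipalCircleBundle (EuclideanSpace ℝ (Fin d)) (EuclideanSpace ℝ (Fin m)) π)
    {r : ℕ∞} (hr : 2 ≤ r)
    {A : Diffeo (EuclideanSpace ℝ (Fin d)) B r} (hA : HyperbolicBase A)
    {f : Diffeo (EuclideanSpace ℝ (Fin m)) M r} (hcov : ∀ y, π (f y) = A (π y))
    (hf : PreservesOrientedCircles f) (hst : OmegaStable f) :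
    [SatisfiesAxiomA f ∧ HasNoCycles f,
      UniformCircleExponents (EuclideanSpace ℝ (Fin m)) f,
      OneSidedAtPeriodicPoints (EuclideanSpace ℝ (Fin m)) f,
      AffineAtPeriodicPoints (EuclideanSpace ℝ (Fin m)) f].TFAE := by
  subst hm
  obtain ⟨h1, h2, h3, h4, h5, h6⟩ := hπ
  exact OS.os_finalD ⟨h1, h2, h3, h4, h5, h6⟩ hr A hA f hcov hf hst

end Pool.Agent.Results.MP_814647_an.AxiomACriterion
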