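import Pool.Agent.Work.MP_814647_an.PS.Main
import Pool.Agent.Work.MP_814647_an.PS.ProductStatement

/-!
# The converse of the Omega-stability theorem for products

Let `f₁` and `f₂` be `C^r` diffeomorphisms of closed manifolds `N₁` and `N₂`, `1 ≤ r ≤ ∞`, and let
`f` be the product `f₁ × f₂`, on a closed manifold `M` identified with `N₁ × N₂` by a smooth
diffeomorphism. Suppose that `f₂` has a transverse homoclinic orbit, and that the nonwandering
set of `f₁` is infinite or `f₂` is an Anosov diffeomorphism with dense periodic points. If `f` is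
`C^r` Omega-stable (among all `C^r` diffeomorphisms of `M`) then it satisfies Axiom A and the
no-cycle property.
-/

open Set Filter Topology
open scoped Manifold ContDiff

namespace Pool.Agent.Results.MP_814647_an.ProductSystems

open Pool.Agent.OmegaStability

theorem result {N₁ N₂ M : ClosedManifold} {r : ℕ∞} (hr : 1 ≤ r)
    {f₁ : CrDiffeo N₁ r} {f₂ : CrDiffeo N₂ r} {f : CrDiffeo M r} (hf : IsProductOf f f₁ f₂)
    (hhom : HasHomoclinicOrbit f₂) (h : InfiniteOmega f₁ ∨ AnosovWithDensePeriodicPoints f₂)
    (hst : OmegaStable f) :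
    SatisfiesAxiomA f ∧ HasNoCycles f := by
  obtain ⟨Φ, hΦ⟩ := hf
  exact (Pool.Agent.OmegaPS.main hr Φ f f₁ f₂ hΦ hst hhom).2 h

end Pool.Agent.Results.MP_814647_an.ProductSystems
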