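import Pool.Agent.Work.MP_814647_an.FT.Closed2
import Pool.Agent.Work.MP_814647_an.FT.TorusStatement

/-!
# The converse of the Omega-stability theorem for torus extensions of arbitrary diffeomorphisms

Let `f₁` be an arbitrary `C^r` diffeomorphism of a closed manifold `N`, `1 ≤ r ≤ ∞`, let `M` be the
product of `N` and a torus `T` with projection `π : M → N`, and let `f` be a `C^r` diffeomorphism of
`M` which maps the fibre over `x` to the fibre over `f₁ x` by a map homotopic to a hyperbolic
automorphism of the torus: `e v ↦ e (A v + g x v)`, where `A` is a hyperbolic integer matrix and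
`g x` is continuous and periodic (nothing is assumed about the dependence of `g x` on `x`). Suppose
that `f` is hyperbolic along the fibres of `π` over its chain recurrent set. If `f` is `C^r`
Omega-stable (among all `C^r` diffeomorphisms of `M`) then it satisfies Axiom A and the no-cycle
property. Nothing is assumed about `f₁`.
-/

open Set Filter Topology
open scoped Manifold ContDiff

namespace Pool.Agent.Results.MP_814647_an.TorusExtensions

open Pool.Agent.OmegaStability

theorem result {M N T : ClosedManifold} {r : ℕ∞} (hr : 1 ≤ r) {π : M.carrier → N.carrier}
    {f : CrDiffeo M r} {f₁ : CrDiffeo N r} (hf : IsTorusSkewProduct T π f f₁)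
    (hv : FibreHyperbolicOver (EuclideanSpace ℝ (Fin N.dim)) π f (ChainRecurrentSet f))
    (hst : OmegaStable f) :
    SatisfiesAxiomA f ∧ HasNoCycles f :=
  (Pool.Agent.OmegaFT.closed2 hr hf.ext hst).2 hv.along

end Pool.Agent.Results.MP_814647_an.TorusExtensions
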